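import Pool.Agent.H992.PM.Defs

/-!
# PM/C: from characteristic functions to polynomials (helper297 for helper992)
-/

set_option autoImplicit false
open MeasureTheory Filter Topology Complex ProbabilityTheory
open scoped ContDiff ENNReal NNReal

namespace Pool.Agent.H297.PM

noncomputable section

lemma inner_toLp' {d : ℕ} (x : Fin d → ℝ) (t : EuclideanSpace ℝ (Fin d)) :
    inner ℝ (WithLp.toLp 2 x : EuclideanSpace ℝ (Fin d)) t = ∑ i, t i * x i := by
  rw [PiLp.inner_apply]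
  refine Finset.sum_congr rfl fun i _ => ?_
  simp [RCLike.inner_apply]

/-- bounded continuous functions -/
lemma conv_bdd {Z Z' : Type} [MeasurableSpace Z] [MeasurableSpace Z'] {d : ℕ}
    (Q : Measure Z) [IsProbabilityMeasure Q] (γ : Measure Z') [IsProbabilityMeasure γ]
    (X : ℕ → Z → Fin d → ℝ) (V : Z' → Fin d → ℝ) (hX : ∀ n, Measurable (X n)) (hV : Measurable V)
    (h : ∀ t : Fin d → ℝ, Tendsto (fun n => ∫ z, Complex.exp (I * ((∑ i, t i * X n z i : ℝ) : ℂ)) ∂Q)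
      atTop (𝓝 (∫ z, Complex.exp (I * ((∑ i, t i * V z i : ℝ) : ℂ)) ∂γ)))
    (g : (Fin d → ℝ) → ℝ) (hg : Continuous g) (C : ℝ) (hC : ∀ x, |g x| ≤ C) :
    Tendsto (fun n => ∫ z, g (X n z) ∂Q) atTop (𝓝 (∫ z, g (V z) ∂γ)) := by
  have hcont : Continuous fun x : Fin d → ℝ => (WithLp.toLp 2 x : EuclideanSpace ℝ (Fin d)) :=
    PiLp.continuous_toLp 2 _
  let Y : ℕ → Z → EuclideanSpace ℝ (Fin d) := fun n z => WithLp.toLp 2 (X n z)
  have hY : ∀ n, AEMeasurable (Y n) Q := fun n => (hcont.measurable.comp (hX n)).aemeasurable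
  let U : Z' → EuclideanSpace ℝ (Fin d) := fun z => WithLp.toLp 2 (V z)
  have hU : AEMeasurable U γ := (hcont.measurable.comp hV).aemeasurable
  let Pn : ℕ → ProbabilityMeasure (EuclideanSpace ℝ (Fin d)) := fun n =>
    ⟨Q.map (Y n), Measure.isProbabilityMeasure_map (hY n)⟩
  let G : ProbabilityMeasure (EuclideanSpace ℝ (Fin d)) :=
    ⟨γ.map U, Measure.isProbabilityMeasure_map hU⟩
  have hexp : ∀ τ : EuclideanSpace ℝ (Fin d), Continuous fun x : EuclideanSpace ℝ (Fin d) =>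
      Complex.exp (((inner ℝ x τ : ℝ) : ℂ) * I) := by
    intro τ
    fun_prop
  have hlim : Tendsto Pn atTop (𝓝 G) := by
    refine ProbabilityMeasure.tendsto_iff_tendsto_charFun.2 fun τ => ?_
    have e1 : ∀ n, ∫ z, Complex.exp (I * ((∑ i, τ i * X n z i : ℝ) : ℂ)) ∂Q =
        charFun ((Pn n : ProbabilityMeasure (EuclideanSpace ℝ (Fin d))) :
          Measure (EuclideanSpace ℝ (Fin d))) τ := by
      intro n
      have e2 : charFun ((Pn n : ProbabilityMeasure (EuclideanSpace ℝ (Fin d))) :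
          Measure (EuclideanSpace ℝ (Fin d))) τ = charFun (Q.map (Y n)) τ := rfl
      rw [e2, charFun_apply, integral_map (hY n) (hexp τ).aestronglyMeasurable]
      refine integral_congr_ae (Eventually.of_forall fun z => ?_)
      show Complex.exp (I * ((∑ i, τ i * X n z i : ℝ) : ℂ)) =
        Complex.exp (((inner ℝ (Y n z) τ : ℝ) : ℂ) * I)
      rw [inner_toLp', mul_comm I]
    have e3 : ∫ z, Complex.exp (I * ((∑ i, τ i * V z i : ℝ) : ℂ)) ∂γ =
        charFun ((G : ProbabilityMeasure (EuclideanSpace ℝ (Fin d))) :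
          Measure (EuclideanSpace ℝ (Fin d))) τ := by
      have e2 : charFun ((G : ProbabilityMeasure (EuclideanSpace ℝ (Fin d))) :
          Measure (EuclideanSpace ℝ (Fin d))) τ = charFun (γ.map U) τ := rfl
      rw [e2, charFun_apply, integral_map hU (hexp τ).aestronglyMeasurable]
      refine integral_congr_ae (Eventually.of_forall fun z => ?_)
      show Complex.exp (I * ((∑ i, τ i * V z i : ℝ) : ℂ)) =
        Complex.exp (((inner ℝ (U z) τ : ℝ) : ℂ) * I)
      rw [inner_toLp', mul_comm I]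
    have h1 := h (fun i => τ i)
    rw [e3] at h1
    exact h1.congr e1
  have hgc : Continuous fun x : EuclideanSpace ℝ (Fin d) => g (WithLp.ofLp x) :=
    hg.comp (PiLp.continuous_ofLp 2 _)
  have hw := (ProbabilityMeasure.tendsto_iff_forall_integral_tendsto.1 hlim)
    (BoundedContinuousFunction.ofNormedAddCommGroup _ hgc C fun x => by
      rw [Real.norm_eq_abs]; exact hC _)
  have e4 : ∀ n, ∫ x, (BoundedContinuousFunction.ofNormedAddCommGroup _ hgc C fun x => by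
      rw [Real.norm_eq_abs]; exact hC _) x
      ∂((Pn n : ProbabilityMeasure (EuclideanSpace ℝ (Fin d))) :
        Measure (EuclideanSpace ℝ (Fin d))) = ∫ z, g (X n z) ∂Q := by
    intro n
    show ∫ x, g (WithLp.ofLp x) ∂(Q.map (Y n)) = _
    rw [integral_map (hY n) hgc.aestronglyMeasurable]
  have e5 : ∫ x, (BoundedContinuousFunction.ofNormedAddCommGroup _ hgc C fun x => by
      rw [Real.norm_eq_abs]; exact hC _) x
      ∂((G : ProbabilityMeasure (EuclideanSpace ℝ (Fin d))) :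
        Measure (EuclideanSpace ℝ (Fin d))) = ∫ z, g (V z) ∂γ := by
    show ∫ x, g (WithLp.ofLp x) ∂(γ.map U) = _
    rw [integral_map hU hgc.aestronglyMeasurable]
  rw [e5] at hw
  exact hw.congr e4

/-- truncation -/
def tr (M y : ℝ) : ℝ := max (-M) (min M y)

lemma tr_cont (M : ℝ) : Continuous (tr M) := by
  unfold tr
  fun_prop

lemma tr_abs {M : ℝ} (hM : 0 ≤ M) (y : ℝ) : |tr M y| ≤ M := by
  unfold tr
  rw [abs_le]
  constructor
  · exact le_max_left _ _
  · exact max_le (by linarith) (min_le_left _ _)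

lemma tr_err {M : ℝ} (hM : 0 < M) (y : ℝ) : |y - tr M y| ≤ M⁻¹ * |y| ^ 2 := by
  have h0 : 0 ≤ M⁻¹ * |y| ^ 2 := by positivity
  by_cases h : |y| ≤ M
  · have h1 : tr M y = y := by
      unfold tr
      rw [abs_le] at h
      rw [min_eq_right h.2, max_eq_right h.1]
    rw [h1, sub_self, abs_zero]
    exact h0
  · push Not at h
    have hy : 0 < |y| := hM.trans h
    have h1 : |y - tr M y| ≤ |y| := by
      unfold tr
      rcases le_total 0 y with h2 | h2
      · rw [abs_of_nonneg h2] at h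
        rw [min_eq_left h.le, max_eq_right (by linarith), abs_of_nonneg (by linarith),
          abs_of_nonneg h2]
        linarith
      · rw [abs_of_nonpos h2] at h
        rw [min_eq_right (by linarith), max_eq_left (by linarith), abs_of_nonpos (by linarith),
          abs_of_nonpos h2]
        linarith
    refine h1.trans ?_
    have h2 : |y| = M⁻¹ * (M * |y|) := by
      rw [← mul_assoc, inv_mul_cancel₀ hM.ne', one_mul]
    rw [h2]
    refine mul_le_mul_of_nonneg_left ?_ (by positivity)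
    rw [← h2, sq]
    exact mul_le_mul_of_nonneg_right h.le hy.le

section good

variable {Z : Type} [MeasurableSpace Z] {k : ℕ}

/-- bounded means -/
def Good (Q : Measure Z) (Y : ℕ → Z → Fin k → ℝ) (f : (Fin k → ℝ) → ℝ) : Prop :=
  ∃ M : ℝ, ∀ᶠ n in atTop, Integrable (fun z => f (Y n z)) Q ∧ ∫ z, f (Y n z) ∂Q ≤ M

lemma Good.mono {Q : Measure Z} {Y : ℕ → Z → Fin k → ℝ} (hY : ∀ n, Measurable (Y n))
    {f g : (Fin k → ℝ) → ℝ} (hf : Good Q Y f) (hg : Continuous g) (h0 : ∀ y, 0 ≤ g y)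
    (hgf : ∀ y, g y ≤ f y) : Good Q Y g := by
  obtain ⟨M, hM⟩ := hf
  refine ⟨M, ?_⟩
  filter_upwards [hM] with n hn
  have h1 : Integrable (fun z => g (Y n z)) Q := by
    refine hn.1.mono' (hg.measurable.comp (hY n)).aestronglyMeasurable
      (Eventually.of_forall fun z => ?_)
    rw [Real.norm_eq_abs, abs_of_nonneg (h0 _)]
    exact hgf _
  exact ⟨h1, (integral_mono h1 hn.1 fun z => hgf _).trans hn.2⟩

lemma Good.add {Q : Measure Z} {Y : ℕ → Z → Fin k → ℝ}
    {f g : (Fin k → ℝ) → ℝ} (hf : Good Q Y f) (hg : Good Q Y g) :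
    Good Q Y (fun y => f y + g y) := by
  obtain ⟨M, hM⟩ := hf
  obtain ⟨M', hM'⟩ := hg
  refine ⟨M + M', ?_⟩
  filter_upwards [hM, hM'] with n hn hn'
  refine ⟨hn.1.add hn'.1, ?_⟩
  have h1 : ∫ z, (f (Y n z) + g (Y n z)) ∂Q = ∫ z, f (Y n z) ∂Q + ∫ z, g (Y n z) ∂Q :=
    integral_add hn.1 hn'.1
  rw [h1]
  exact add_le_add hn.2 hn'.2

lemma Good.const_mul {Q : Measure Z} {Y : ℕ → Z → Fin k → ℝ}
    {f : (Fin k → ℝ) → ℝ} (hf : Good Q Y f) {c : ℝ} (hc : 0 ≤ c) :
    Good Q Y (fun y => c * f y) := by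
  obtain ⟨M, hM⟩ := hf
  refine ⟨c * M, ?_⟩
  filter_upwards [hM] with n hn
  refine ⟨hn.1.const_mul c, ?_⟩
  rw [integral_const_mul]
  exact mul_le_mul_of_nonneg_left hn.2 hc

lemma good_const {Q : Measure Z} [IsFiniteMeasure Q] {Y : ℕ → Z → Fin k → ℝ} (c : ℝ) :
    Good Q Y (fun _ => c) :=
  ⟨∫ _, c ∂Q, Eventually.of_forall fun _ => ⟨integrable_const _, le_rfl⟩⟩

/-- all the powers of a polynomial have bounded means -/
lemma good_poly {Q : Measure Z} [IsFiniteMeasure Q] {Y : ℕ → Z → Fin k → ℝ}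
    (hY : ∀ n, Measurable (Y n))
    (hm : ∀ (j : Fin k) (q : ℕ), Good Q Y (fun y => |y j| ^ q)) (R : MvPolynomial (Fin k) ℝ) :
    ∀ r : ℕ, Good Q Y (fun y => |MvPolynomial.eval y R| ^ r) := by
  induction R using MvPolynomial.induction_on with
  | C a =>
    intro r
    simp only [MvPolynomial.eval_C]
    exact good_const _
  | add p q hp hq =>
    intro r
    refine (((hp r).add (hq r)).const_mul (c := (2 : ℝ) ^ (r - 1)) (by positivity)).mono hY
      ?_ (fun y => by positivity) ?_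
    · exact ((MvPolynomial.continuous_eval _).abs).pow r
    · intro y
      rw [map_add]
      refine (pow_le_pow_left₀ (abs_nonneg _) (abs_add_le _ _) r).trans ?_
      exact add_pow_le (abs_nonneg _) (abs_nonneg _) r
  | mul_X p j hp =>
    intro r
    refine ((hp (2 * r)).add (hm j (2 * r))).mono hY
      (((MvPolynomial.continuous_eval _).abs).pow r) (fun y => by positivity) ?_
    intro y
    rw [map_mul, MvPolynomial.eval_X, abs_mul, mul_pow, pow_mul, pow_mul, ← pow_mul,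
      mul_comm 2 r, pow_mul, ← pow_mul |y j|, mul_comm 2 r, pow_mul]
    have h1 : 0 ≤ |MvPolynomial.eval y p| ^ r := by positivity
    have h2 : 0 ≤ |y j| ^ r := by positivity
    nlinarith [sq_nonneg (|MvPolynomial.eval y p| ^ r - |y j| ^ r)]

/-- the error of the truncation -/
lemma trunc_bd {Q : Measure Z} [IsFiniteMeasure Q] {x : Z → Fin k → ℝ} (hx : Measurable x)
    {F : (Fin k → ℝ) → ℝ} (hF : Continuous F) (h1 : Integrable (fun z => |F (x z)| ^ 1) Q)
    (h2 : Integrable (fun z => |F (x z)| ^ 2) Q) {M : ℝ} (hM : 0 < M) :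
    |∫ z, F (x z) ∂Q - ∫ z, tr M (F (x z)) ∂Q| ≤ M⁻¹ * ∫ z, |F (x z)| ^ 2 ∂Q := by
  have hFm : AEStronglyMeasurable (fun z => F (x z)) Q :=
    (hF.measurable.comp hx).aestronglyMeasurable
  have hFi : Integrable (fun z => F (x z)) Q := by
    refine h1.mono' hFm (Eventually.of_forall fun z => ?_)
    rw [Real.norm_eq_abs, pow_one]
  have hTi : Integrable (fun z => tr M (F (x z))) Q := by
    refine (integrable_const M).mono' ?_ (Eventually.of_forall fun z => ?_)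
    · exact (tr_cont M).comp_aestronglyMeasurable hFm
    · rw [Real.norm_eq_abs]
      exact tr_abs hM.le _
  rw [← integral_sub hFi hTi, ← integral_const_mul, ← Real.norm_eq_abs]
  refine norm_integral_le_of_norm_le (h2.const_mul _) (Eventually.of_forall fun z => ?_)
  rw [Real.norm_eq_abs]
  exact tr_err hM _

end good

/-- the statement for a probability measure -/
lemma pc_prob (Z : Type) [MeasurableSpace Z] (Q : Measure Z) [IsProbabilityMeasure Q]
    (Z' : Type) [MeasurableSpace Z'] (γ : Measure Z') [IsProbabilityMeasure γ]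
    (k : ℕ) (Y : ℕ → Z → Fin k → ℝ) (V : Z' → Fin k → ℝ) (hY : ∀ n, Measurable (Y n))
    (hV : Measurable V)
    (h : ∀ t : Fin k → ℝ, Tendsto (fun n => ∫ z, Complex.exp (I * ((∑ j, t j * Y n z j : ℝ) : ℂ)) ∂Q)
      atTop (𝓝 (∫ z, Complex.exp (I * ((∑ j, t j * V z j : ℝ) : ℂ)) ∂γ)))
    (hm : ∀ (j : Fin k) (q : ℕ), Good Q Y (fun y => |y j| ^ q))
    (hmV : ∀ (j : Fin k) (q : ℕ), Integrable (fun z => |V z j| ^ q) γ)
    (R : MvPolynomial (Fin k) ℝ) : Tendsto (fun n => ∫ z, MvPolynomial.eval (Y n z) R ∂Q) atTop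
    (𝓝 (∫ z, MvPolynomial.eval (V z) R ∂γ)) := by
  have hF : Continuous fun y : Fin k → ℝ => MvPolynomial.eval y R := MvPolynomial.continuous_eval _
  have hgV : ∀ (j : Fin k) (q : ℕ), Good γ (fun _ => V) (fun y => |y j| ^ q) := fun j q =>
    ⟨_, Eventually.of_forall fun _ => ⟨hmV j q, le_rfl⟩⟩
  obtain ⟨B1, hB1⟩ := good_poly hY hm R 1
  obtain ⟨B2, hB2⟩ := good_poly hY hm R 2
  obtain ⟨C1, hC1⟩ := good_poly (Y := fun _ => V) (fun _ => hV) hgV R 1
  obtain ⟨C2, hC2⟩ := good_poly (Y := fun _ => V) (fun _ => hV) hgV R 2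
  obtain ⟨_, hC1'⟩ := hC1.exists
  obtain ⟨_, hC2'⟩ := hC2.exists
  refine Metric.tendsto_nhds.2 fun ε hε => ?_
  obtain ⟨M, hM0, hM⟩ : ∃ M : ℝ, 0 < M ∧ M⁻¹ * (|B2| + |C2|) < ε / 3 := by
    refine ⟨3 * (|B2| + |C2| + 1) / ε, by positivity, ?_⟩
    rw [inv_div, div_mul_eq_mul_div, div_lt_iff₀ (by positivity)]
    have h1 : 0 ≤ |B2| + |C2| := by positivity
    have h2 : ε / 3 * (3 * (|B2| + |C2| + 1)) = ε * (|B2| + |C2|) + ε := by ring
    rw [h2]
    linarith
  have hMp : 0 ≤ M⁻¹ := by positivity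
  have hM1 : M⁻¹ * B2 < ε / 3 := by
    refine lt_of_le_of_lt (mul_le_mul_of_nonneg_left ?_ hMp) hM
    have := le_abs_self B2
    have := abs_nonneg C2
    linarith
  have hM2 : M⁻¹ * C2 < ε / 3 := by
    refine lt_of_le_of_lt (mul_le_mul_of_nonneg_left ?_ hMp) hM
    have := le_abs_self C2
    have := abs_nonneg B2
    linarith
  have hconv := conv_bdd Q γ Y V hY hV h (fun y => tr M (MvPolynomial.eval y R))
    ((tr_cont M).comp hF) M (fun y => tr_abs hM0.le _)
  have h3 := (Metric.tendsto_nhds.1 hconv) (ε / 3) (by positivity)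
  have h4 := trunc_bd hV hF hC1'.1 hC2'.1 hM0
  have h4' := h4.trans (mul_le_mul_of_nonneg_left hC2'.2 hMp)
  filter_upwards [h3, hB1, hB2] with n h5 h6 h7
  have h8 := (trunc_bd (hY n) hF h6.1 h7.1 hM0).trans (mul_le_mul_of_nonneg_left h7.2 hMp)
  rw [Real.dist_eq] at h5 ⊢
  rw [abs_lt] at h5 ⊢
  rw [abs_le] at h8 h4'
  constructor <;> linarith

/-- the statement -/
theorem pc_aux (Z : Type) [MeasurableSpace Z] (Q : Measure Z) [IsFiniteMeasure Q]
    (Z' : Type) [MeasurableSpace Z'] (γ : Measure Z') [IsProbabilityMeasure γ]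
    (k : ℕ) (Y : ℕ → Z → Fin k → ℝ) (V : Z' → Fin k → ℝ) (hY : ∀ n, Measurable (Y n))
    (hV : Measurable V)
    (h : ∀ t : Fin k → ℝ, Tendsto (fun n => ∫ z, Complex.exp (I * ((∑ j, t j * Y n z j : ℝ) : ℂ)) ∂Q)
      atTop (𝓝 ((∫ z, Complex.exp (I * ((∑ j, t j * V z j : ℝ) : ℂ)) ∂γ) *
        ((Q Set.univ).toReal : ℂ))))
    (hm : ∀ (j : Fin k) (q : ℕ), ∃ M : ℝ, ∀ᶠ n in atTop, Integrable (fun z => |Y n z j| ^ q) Q ∧
      ∫ z, |Y n z j| ^ q ∂Q ≤ M)
    (hmV : ∀ (j : Fin k) (q : ℕ), Integrable (fun z => |V z j| ^ q) γ)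
    (R : MvPolynomial (Fin k) ℝ) : Tendsto (fun n => ∫ z, MvPolynomial.eval (Y n z) R ∂Q) atTop
    (𝓝 ((∫ z, MvPolynomial.eval (V z) R ∂γ) * (Q Set.univ).toReal)) := by
  rcases eq_or_ne Q 0 with hz | hz
  · rw [hz]
    simp
  obtain ⟨m, hmd⟩ : ∃ m : ℝ, m = (Q Set.univ).toReal := ⟨_, rfl⟩
  have hNZ : NeZero Q := ⟨hz⟩
  have hm0 : 0 < m := by
    rw [hmd]
    exact ENNReal.toReal_pos ((Measure.measure_univ_ne_zero).2 hz) (measure_ne_top _ _)
  rw [← hmd] at h ⊢
  obtain ⟨Q', hQ⟩ : ∃ Q' : Measure Z, Q' = (Q Set.univ)⁻¹ • Q := ⟨_, rfl⟩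
  have hQp : IsProbabilityMeasure Q' := by
    rw [hQ]
    infer_instance
  have hQr : ∀ g : Z → ℝ, ∫ z, g z ∂Q' = m⁻¹ * ∫ z, g z ∂Q := by
    intro g
    rw [hQ, integral_smul_measure, hmd, ENNReal.toReal_inv]
    rfl
  have hQc : ∀ g : Z → ℂ, ∫ z, g z ∂Q' = ((m⁻¹ : ℝ) : ℂ) * ∫ z, g z ∂Q := by
    intro g
    rw [hQ, integral_smul_measure, hmd, ENNReal.toReal_inv, Complex.real_smul]
  have hmm : ((m⁻¹ : ℝ) : ℂ) * (m : ℂ) = 1 := by
    rw [← Complex.ofReal_mul, inv_mul_cancel₀ hm0.ne', Complex.ofReal_one]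
  have h' : ∀ t : Fin k → ℝ, Tendsto (fun n => ∫ z, Complex.exp (I *
      ((∑ j, t j * Y n z j : ℝ) : ℂ)) ∂Q') atTop
      (𝓝 (∫ z, Complex.exp (I * ((∑ j, t j * V z j : ℝ) : ℂ)) ∂γ)) := by
    intro t
    have h1 := (h t).const_mul (((m⁻¹ : ℝ) : ℂ))
    have h2 : ((m⁻¹ : ℝ) : ℂ) * ((∫ z, Complex.exp (I * ((∑ j, t j * V z j : ℝ) : ℂ)) ∂γ) *
        (m : ℂ)) = ∫ z, Complex.exp (I * ((∑ j, t j * V z j : ℝ) : ℂ)) ∂γ := by
      linear_combination (∫ z, Complex.exp (I * ((∑ j, t j * V z j : ℝ) : ℂ)) ∂γ) * hmm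
    rw [h2] at h1
    refine h1.congr fun n => ?_
    rw [hQc]
  have hm' : ∀ (j : Fin k) (q : ℕ), Good Q' Y (fun y => |y j| ^ q) := by
    intro j q
    obtain ⟨M, hM⟩ := hm j q
    refine ⟨m⁻¹ * M, ?_⟩
    filter_upwards [hM] with n hn
    refine ⟨?_, ?_⟩
    · rw [hQ]
      refine hn.1.smul_measure ?_
      rw [ENNReal.inv_ne_top]
      exact (Measure.measure_univ_ne_zero).2 hz
    · rw [hQr]
      exact mul_le_mul_of_nonneg_left hn.2 (by positivity)
  have h1 := (pc_prob Z Q' Z' γ k Y V hY hV h' hm' hmV R).mul_const m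
  refine h1.congr fun n => ?_
  rw [hQr, mul_comm, ← mul_assoc, mul_inv_cancel₀ hm0.ne', one_mul]

/-- PM/C -/
theorem pc : Pool.Agent.H992.PM.S_PC := by
  intro Z _ Q _ Z' _ γ _ k Y V hY hV h hm hmV R
  exact pc_aux Z Q Z' γ k Y V hY hV h hm hmV R

end

end Pool.Agent.H297.PM
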